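import Mathlib

/-!
# Foregger's conjecture on permanents of powers: exact statements of the steps

`S_col`, `S_vdw`, `S_vdwu`: the van der Waerden permanent inequality with the case of equality (Gurvits).
`S_idem`, `S_blk`, `S_up`, `S_norm`: doubly stochastic idempotents `E` (block matrices with constant blocks).
`S_avg`, `S_tay`, `S_low`, `S_upr`, `S_loc`: the local analysis at `E`.
-/

set_option autoImplicit false

namespace Pool.Agent.Y727.FG

open Finset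

/-- `A` is doubly stochastic. -/
def DS {n : ℕ} (A : Matrix (Fin n) (Fin n) ℝ) : Prop :=
  (∀ i j, 0 ≤ A i j) ∧ (∀ i, ∑ j, A i j = 1) ∧ ∀ j, ∑ i, A i j = 1

/-- The square of the Frobenius norm. -/
noncomputable def fro {n : ℕ} (A : Matrix (Fin n) (Fin n) ℝ) : ℝ := ∑ i, ∑ j, A i j ^ 2

/-- The permutations `σ` with `E i (σ i) ≠ 0` for all `i`. -/
noncomputable def Yg {n : ℕ} (E : Matrix (Fin n) (Fin n) ℝ) : Finset (Equiv.Perm (Fin n)) :=
  by classical exact univ.filter (fun σ => ∀ i, E i (σ i) ≠ 0)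

/-- The mass of `B` outside the support of `E`. -/
noncomputable def sm {n : ℕ} (E B : Matrix (Fin n) (Fin n) ℝ) : ℝ :=
  by classical exact ∑ i, ∑ j, if E i j = 0 then B i j else 0

/-- The mean square deviation inside the support of `E` (`E i j = E i i` there if `E` is a doubly
stochastic idempotent). -/
noncomputable def qm {n : ℕ} (E B : Matrix (Fin n) (Fin n) ℝ) : ℝ :=
  ∑ i, ∑ j, E i j * (B i j / E i i - 1) ^ 2

/-- One elimination step of Gurvits's proof. -/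
def S_col : Prop := ∀ (k : ℕ) (A : Matrix (Fin (k + 1)) (Fin (k + 1)) ℝ), DS A → ∀ c : ℝ, 0 < c →
  (∀ x : Fin k → ℝ, (∀ j, 0 < x j) → c * ∏ j, x j ≤
    ∑ i, A i 0 * ∏ i' ∈ univ.erase i, ∑ j : Fin k, A i' j.succ * x j) →
  c * ((k.factorial : ℝ) / (k : ℝ) ^ k) ≤ A.permanent

/-- The van der Waerden permanent inequality. -/
def S_vdw : Prop := ∀ (n : ℕ) (A : Matrix (Fin n) (Fin n) ℝ), DS A →
  (n.factorial : ℝ) / (n : ℝ) ^ n ≤ A.permanent

/-- The case of equality. -/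
def S_vdwu : Prop := ∀ (n : ℕ) (A : Matrix (Fin n) (Fin n) ℝ), DS A →
  A.permanent = (n.factorial : ℝ) / (n : ℝ) ^ n → ∀ i j, A i j = 1 / (n : ℝ)

/-- Doubly stochastic idempotents are block matrices with constant blocks. -/
def S_idem : Prop := ∀ (n : ℕ) (E : Matrix (Fin n) (Fin n) ℝ), DS E → E * E = E →
  (∀ i j, E i j = E j i) ∧ (∀ i, 0 < E i i) ∧
    ∀ i j, E i j ≠ 0 → E i j = E i i ∧ E j j = E i i ∧ ∀ k, E i k = E j k

/-- Van der Waerden for block diagonal matrices. -/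
def S_blk : Prop := ∀ (n : ℕ) (E B : Matrix (Fin n) (Fin n) ℝ), DS E → E * E = E → DS B →
  (∀ i j, E i j = 0 → B i j = 0) →
  E.permanent ≤ B.permanent ∧ (B.permanent = E.permanent → B = E)

/-- Upper bound for matrices with constant blocks. -/
def S_up : Prop := ∀ (n : ℕ) (E M : Matrix (Fin n) (Fin n) ℝ), DS E → E * E = E → DS M →
  M * E = M → M.permanent ≤ E.permanent ∧
    (M.permanent = E.permanent → ∃ σ : Equiv.Perm (Fin n), ∀ i j, M i j = E (σ i) j)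

/-- The Frobenius norm of a doubly stochastic `X = X E` is maximal only for the matrices `P E`. -/
def S_norm : Prop := ∀ (n : ℕ) (E X : Matrix (Fin n) (Fin n) ℝ), DS E → E * E = E → DS X →
  X * E = X → fro E ≤ fro X → ∃ σ : Equiv.Perm (Fin n), ∀ i j, X i j = E (σ i) j

/-- Averages over the permutations in the support of `E`. -/
def S_avg : Prop := ∀ (n : ℕ) (E : Matrix (Fin n) (Fin n) ℝ), DS E → E * E = E →
  (∀ (i : Fin n) (F : Fin n → ℝ), ∑ σ ∈ Yg E, F (σ i) = ((Yg E).card : ℝ) * ∑ j, E i j * F j) ∧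
  (∀ (i i' : Fin n) (F : Fin n → Fin n → ℝ), E i i' = 0 →
    ∑ σ ∈ Yg E, F (σ i) (σ i') = ((Yg E).card : ℝ) * ∑ a, ∑ b, E i a * E i' b * F a b) ∧
  (∀ (i i' : Fin n) (F : Fin n → Fin n → ℝ), i ≠ i' → E i i' ≠ 0 →
    (1 - E i i) * ∑ σ ∈ Yg E, F (σ i) (σ i') =
      ((Yg E).card : ℝ) * ∑ a, ∑ b ∈ univ.erase a, E i a * E i' b * F a b)

/-- Taylor expansion of a product to the second order. -/
def S_tay : Prop := ∀ n : ℕ, ∃ K : ℝ, 0 < K ∧ ∀ (v : Fin n → ℝ) (ε : ℝ), ε ≤ 1 →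
  (∀ i, |v i| ≤ ε) →
  |∏ i, (1 + v i) - (1 + ∑ i, v i + 1 / 2 * ∑ i, ∑ j ∈ univ.erase i, v i * v j)| ≤
    K * ε * ∑ i, v i ^ 2

/-- Lower bound for the permanent near `E`. -/
def S_low : Prop := ∀ (n : ℕ) (E : Matrix (Fin n) (Fin n) ℝ), DS E → E * E = E →
  ∃ K : ℝ, 0 < K ∧ ∀ (B : Matrix (Fin n) (Fin n) ℝ) (δ : ℝ), DS B → 2 * n * δ ≤ 1 →
    (∀ i j, |B i j - E i j| ≤ δ) →
    E.permanent * (1 - sm E B + qm E B / (2 * n) - K * δ * (sm E B + qm E B)) ≤ B.permanent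

/-- Upper bound for the permanent of a product near `E`. -/
def S_upr : Prop := ∀ (n : ℕ) (E : Matrix (Fin n) (Fin n) ℝ), DS E → E * E = E →
  ∃ K : ℝ, 0 < K ∧ ∀ (B B' : Matrix (Fin n) (Fin n) ℝ) (δ : ℝ), DS B → DS B' → 2 * n * δ ≤ 1 →
    (∀ i j, |B i j - E i j| ≤ δ) → (∀ i j, |B' i j - E i j| ≤ δ) →
    (B' * B).permanent ≤ E.permanent *
      (1 - sm E B - sm E B' + K * δ * (sm E B + sm E B' + qm E B + qm E B'))

/-- The inequality `per (X²) ≤ per X` near a matrix `P E` with `P E = E P`. -/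
def S_loc : Prop := ∀ (n : ℕ) (E : Matrix (Fin n) (Fin n) ℝ) (σ : Equiv.Perm (Fin n)), DS E →
  E * E = E → (∀ i j, E (σ i) (σ j) = E i j) →
  ∃ δ : ℝ, 0 < δ ∧ ∀ X : Matrix (Fin n) (Fin n) ℝ, DS X → (∀ i j, |X i j - E (σ i) j| < δ) →
    (X * X).permanent ≤ X.permanent

end Pool.Agent.Y727.FG
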