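import Pool.Agent.Y727.FG.Stm

/-! # Foregger's conjecture: basic facts on doubly stochastic matrices -/

set_option autoImplicit false

namespace Pool.Agent.Y727.FG

open Finset

variable {n : ℕ}

theorem DS.mul {A B : Matrix (Fin n) (Fin n) ℝ} (hA : DS A) (hB : DS B) : DS (A * B) := by
  refine ⟨fun i j => ?_, fun i => ?_, fun j => ?_⟩
  · rw [Matrix.mul_apply]
    exact sum_nonneg fun k _ => mul_nonneg (hA.1 _ _) (hB.1 _ _)
  · simp only [Matrix.mul_apply]
    rw [sum_comm]
    simp only [← mul_sum, hB.2.1, mul_one, hA.2.1]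
  · simp only [Matrix.mul_apply]
    rw [sum_comm]
    simp only [← sum_mul, hA.2.2, one_mul, hB.2.2]

theorem DS.one : DS (1 : Matrix (Fin n) (Fin n) ℝ) := by
  refine ⟨fun i j => ?_, fun i => ?_, fun j => ?_⟩
  · rw [Matrix.one_apply]
    split_ifs <;> norm_num
  · simp [Matrix.one_apply]
  · simp [Matrix.one_apply]

theorem DS.pow {A : Matrix (Fin n) (Fin n) ℝ} (hA : DS A) (k : ℕ) : DS (A ^ k) := by
  induction k with
  | zero => rw [pow_zero]; exact DS.one
  | succ k ih => rw [pow_succ]; exact ih.mul hA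

theorem DS.le_one {A : Matrix (Fin n) (Fin n) ℝ} (hA : DS A) (i j : Fin n) : A i j ≤ 1 := by
  rw [← hA.2.1 i]
  exact single_le_sum (f := fun j => A i j) (fun k _ => hA.1 i k) (mem_univ j)

theorem DS.transpose {A : Matrix (Fin n) (Fin n) ℝ} (hA : DS A) : DS A.transpose :=
  ⟨fun i j => hA.1 j i, hA.2.2, hA.2.1⟩

/-- `‖G S‖ ≤ ‖G‖`. -/
theorem fro_mul_le {G S : Matrix (Fin n) (Fin n) ℝ} (hS : DS S) : fro (G * S) ≤ fro G := by
  unfold fro
  refine sum_le_sum fun i _ => ?_
  calc ∑ j, (G * S) i j ^ 2 ≤ ∑ j, ∑ k, G i k ^ 2 * S k j := by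
        refine sum_le_sum fun j _ => ?_
        rw [Matrix.mul_apply]
        have h1 := sum_mul_sq_le_sq_mul_sq univ (fun k => G i k * Real.sqrt (S k j))
          (fun k => Real.sqrt (S k j))
        have h2 : ∀ k, G i k * Real.sqrt (S k j) * Real.sqrt (S k j) = G i k * S k j := by
          intro k
          rw [mul_assoc, Real.mul_self_sqrt (hS.1 k j)]
        have h3 : ∀ k, (G i k * Real.sqrt (S k j)) ^ 2 = G i k ^ 2 * S k j := by
          intro k
          rw [mul_pow, Real.sq_sqrt (hS.1 k j)]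
        have h4 : ∀ k, Real.sqrt (S k j) ^ 2 = S k j := fun k => Real.sq_sqrt (hS.1 k j)
        simp only [h2, h3, h4, hS.2.2 j, mul_one] at h1
        exact h1
    _ = ∑ k, G i k ^ 2 * ∑ j, S k j := by
        rw [sum_comm]
        simp only [mul_sum]
    _ = _ := by simp only [hS.2.1, mul_one]

theorem fro_transpose (G : Matrix (Fin n) (Fin n) ℝ) : fro G.transpose = fro G := by
  unfold fro
  rw [sum_comm]
  rfl

/-- `‖S G‖ ≤ ‖G‖`. -/
theorem fro_mul_le' {G S : Matrix (Fin n) (Fin n) ℝ} (hS : DS S) : fro (S * G) ≤ fro G := by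
  rw [← fro_transpose (S * G), Matrix.transpose_mul, ← fro_transpose G]
  exact fro_mul_le hS.transpose

/-- The set of doubly stochastic matrices. -/
def DSset (n : ℕ) : Set (Matrix (Fin n) (Fin n) ℝ) := {A | DS A}

theorem isClosed_DSset : IsClosed (DSset n) := by
  have h : DSset n = (⋂ i, ⋂ j, {A : Matrix (Fin n) (Fin n) ℝ | 0 ≤ A i j}) ∩
      ((⋂ i, {A : Matrix (Fin n) (Fin n) ℝ | ∑ j, A i j = 1}) ∩
        ⋂ j, {A : Matrix (Fin n) (Fin n) ℝ | ∑ i, A i j = 1}) := by
    ext A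
    simp [DSset, DS, Set.mem_iInter]
  rw [h]
  have hc : ∀ i j, Continuous fun A : Matrix (Fin n) (Fin n) ℝ => A i j := fun i j =>
    (continuous_apply j).comp (continuous_apply i)
  refine IsClosed.inter ?_ (IsClosed.inter ?_ ?_)
  · exact isClosed_iInter fun i => isClosed_iInter fun j =>
      isClosed_le continuous_const (hc i j)
  · exact isClosed_iInter fun i => isClosed_eq (continuous_finsetSum _ fun j _ => hc i j)
      continuous_const
  · exact isClosed_iInter fun j => isClosed_eq (continuous_finsetSum _ fun i _ => hc i j)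
      continuous_const

theorem isCompact_DSset : IsCompact (DSset n) := by
  have h : IsCompact (Set.pi Set.univ fun _ : Fin n => Set.pi Set.univ fun _ : Fin n =>
      Set.Icc (0 : ℝ) 1) :=
    isCompact_univ_pi fun _ => isCompact_univ_pi fun _ => isCompact_Icc
  refine h.of_isClosed_subset isClosed_DSset ?_
  intro A hA i _ j _
  exact ⟨hA.1 i j, DS.le_one hA i j⟩

theorem continuous_permanent :
    Continuous fun A : Matrix (Fin n) (Fin n) ℝ => A.permanent := by
  unfold Matrix.permanent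
  refine continuous_finsetSum _ fun σ _ => continuous_finsetProd _ fun i _ => ?_
  exact (continuous_apply i).comp (continuous_apply (σ i))

instance instFC (n : ℕ) : FirstCountableTopology (Matrix (Fin n) (Fin n) ℝ) :=
  inferInstanceAs (FirstCountableTopology (Fin n → Fin n → ℝ))

/-- The relation `Y ∈ X · DS` is closed. -/
theorem closed_rel {X Y : ℕ → Matrix (Fin n) (Fin n) ℝ} {X₀ Y₀ : Matrix (Fin n) (Fin n) ℝ}
    (hX : Filter.Tendsto X Filter.atTop (nhds X₀)) (hY : Filter.Tendsto Y Filter.atTop (nhds Y₀))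
    (h : ∀ᶠ r in Filter.atTop, ∃ S, DS S ∧ Y r = X r * S) : ∃ S, DS S ∧ Y₀ = X₀ * S := by
  classical
  obtain ⟨r₀, hr₀⟩ := Filter.eventually_atTop.mp h
  have h' : ∀ r, ∃ S, DS S ∧ Y (r + r₀) = X (r + r₀) * S := fun r => hr₀ _ (by omega)
  choose S hS hYS using h'
  obtain ⟨S₀, hS₀, φ, hφ, hlim⟩ := isCompact_DSset.tendsto_subseq (x := S) fun r => hS r
  refine ⟨S₀, hS₀, ?_⟩
  have hsh : Filter.Tendsto (fun r => φ r + r₀) Filter.atTop Filter.atTop :=
    (Filter.tendsto_add_atTop_nat r₀).comp hφ.tendsto_atTop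
  have h1 : Filter.Tendsto (fun r => Y (φ r + r₀)) Filter.atTop (nhds Y₀) := hY.comp hsh
  have h2 : Filter.Tendsto (fun r => X (φ r + r₀) * S (φ r)) Filter.atTop (nhds (X₀ * S₀)) :=
    (hX.comp hsh).mul hlim
  have h3 : (fun r => Y (φ r + r₀)) = fun r => X (φ r + r₀) * S (φ r) := funext fun r => hYS _
  rw [h3] at h1
  exact tendsto_nhds_unique h1 h2

theorem closed_rel' {X Y : ℕ → Matrix (Fin n) (Fin n) ℝ} {X₀ Y₀ : Matrix (Fin n) (Fin n) ℝ}
    (hX : Filter.Tendsto X Filter.atTop (nhds X₀)) (hY : Filter.Tendsto Y Filter.atTop (nhds Y₀))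
    (h : ∀ᶠ r in Filter.atTop, ∃ S, DS S ∧ Y r = S * X r) : ∃ S, DS S ∧ Y₀ = S * X₀ := by
  obtain ⟨S, hS, h1⟩ := closed_rel (X := fun r => (X r).transpose) (Y := fun r => (Y r).transpose)
    (X₀ := X₀.transpose) (Y₀ := Y₀.transpose) ((Continuous.matrix_transpose continuous_id).tendsto _ |>.comp hX)
    ((Continuous.matrix_transpose continuous_id).tendsto _ |>.comp hY) (by
      filter_upwards [h] with r hr
      obtain ⟨S, hS, h1⟩ := hr
      exact ⟨S.transpose, hS.transpose, by rw [h1, Matrix.transpose_mul]⟩)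
  refine ⟨S.transpose, hS.transpose, ?_⟩
  rw [← Matrix.transpose_transpose Y₀, h1, Matrix.transpose_mul, Matrix.transpose_transpose]

end Pool.Agent.Y727.FG
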