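import Pool.Agent.Y727.FG.Stm
import Pool.Agent.Helper886.HCube.Perm

/-! # Gurvits's inequality with the sharp constant, and one elimination step for the permanent -/

set_option autoImplicit false

open scoped BigOperators
open MvPolynomial

namespace Pool.Agent.Y727.FG

open Pool.Agent.Helper886.HCube

lemma fac_exp {x y : ℝ} (hy : 0 ≤ y) : 1 + x ≤ (1 + y) * Real.exp ((x - y) / (1 + y)) := by
  have h1 := Real.add_one_le_exp ((x - y) / (1 + y))
  have h2 : 0 < 1 + y := by linarith
  calc 1 + x = (1 + y) * ((x - y) / (1 + y) + 1) := by field_simp; ring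
    _ ≤ _ := mul_le_mul_of_nonneg_left h1 h2.le

lemma pad_exp {y : ℝ} (hy : 0 ≤ y) : Real.exp (y / (1 + y)) ≤ 1 + y := by
  have h2 : 0 < 1 + y := by linarith
  have h1 := Real.add_one_le_exp (-(y / (1 + y)))
  have h3 : -(y / (1 + y)) + 1 = 1 / (1 + y) := by field_simp; ring
  rw [h3, Real.exp_neg, one_div] at h1
  exact (inv_le_inv₀ h2 (Real.exp_pos _)).mp h1

/-- product bound for at most `k + 1` factors -/
lemma prod_bound (s : Multiset ℝ) (k : ℕ) (hs : Multiset.card s ≤ k + 1) (y : ℝ) (hy : 0 ≤ y)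
    (h0 : ∀ x ∈ s, 0 ≤ x) (hsum : s.sum = (k + 1) * y) :
    (s.map fun x => 1 + x).prod ≤ (1 + y) ^ (k + 1) := by
  have h2 : 0 < 1 + y := by linarith
  have h1 : (s.map fun x => 1 + x).prod ≤
      (s.map fun x => (1 + y) * Real.exp ((x - y) / (1 + y))).prod := by
    apply Multiset.prod_map_le_prod_map₀
    · intro x hx
      have := h0 x hx
      linarith
    · intro x hx
      exact fac_exp hy
  have h3 : (s.map fun x => (1 + y) * Real.exp ((x - y) / (1 + y))).prod =
      (1 + y) ^ (Multiset.card s) * Real.exp ((s.sum - Multiset.card s * y) / (1 + y)) := by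
    rw [Multiset.prod_map_mul, Multiset.map_const', Multiset.prod_replicate]
    congr 1
    induction s using Multiset.induction with
    | empty => simp
    | cons a s ih =>
      clear h1 hsum hs ih
      induction s using Multiset.induction generalizing a with
      | empty => simp
      | cons b s ih2 => 
        have := ih2 b (by
          intro x hx
          apply h0
          exact Multiset.mem_cons_of_mem hx)
        rw [Multiset.map_cons, Multiset.prod_cons, this, ← Real.exp_add]
        congr 1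
        simp only [Multiset.sum_cons, Multiset.card_cons]
        push_cast
        ring
  rw [h3] at h1
  refine h1.trans ?_
  rw [hsum]
  obtain ⟨d, hd⟩ := Nat.exists_eq_add_of_le hs
  have h4 : (((k : ℝ) + 1) * y - Multiset.card s * y) / (1 + y) = d * (y / (1 + y)) := by
    have : ((k : ℝ) + 1) = Multiset.card s + d := by exact_mod_cast hd
    rw [this]
    ring
  rw [h4, Real.exp_nat_mul, hd, pow_add]
  exact mul_le_mul_of_nonneg_left (pow_le_pow_left₀ (Real.exp_pos _).le (pad_exp hy) d)
    (pow_pos h2 _).le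

lemma gpos (k : ℕ) : 0 < ((k : ℝ) / (k + 1)) ^ k := by
  rcases Nat.eq_zero_or_pos k with hk | hk
  · subst hk; simp
  · have : (0 : ℝ) < k := by exact_mod_cast hk
    positivity

/-- growth lemma with the sharp constant -/
lemma lemCs (h : Polynomial ℂ) (k : ℕ) (hdeg : h.natDegree ≤ k + 1)
    (hroot : ∀ u, h.eval u = 0 → ‖u‖ + u.re ≤ 0) (c : ℝ) (hc : 0 < c)
    (hg : ∀ t : ℝ, 0 < t → c * t ≤ ‖h.eval (t : ℂ)‖) :
    c * ((k : ℝ) / (k + 1)) ^ k ≤ ‖h.coeff 1‖ := by
  have hh0 : h ≠ 0 := by
    rintro rfl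
    have := hg 1 one_pos
    simp at this
    linarith
  have hle1 : ((k : ℝ) / (k + 1)) ^ k ≤ 1 := by
    apply pow_le_one₀ (by positivity)
    rw [div_le_one (by positivity)]
    linarith
  by_cases h0 : h.eval 0 = 0
  · -- h = X * g
    have hco : h.coeff 0 = 0 := by rw [← Polynomial.coeff_zero_eq_eval_zero] at h0; exact h0
    have hX : h = Polynomial.X * h.divX := by
      have := Polynomial.divX_mul_X_add h
      rw [hco, map_zero, add_zero, mul_comm] at this
      exact this.symm
    have h1 : h.coeff 1 = h.divX.eval 0 := by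
      rw [← Polynomial.coeff_zero_eq_eval_zero, Polynomial.coeff_divX]
    have h2 : ∀ t : ℝ, 0 < t → c ≤ ‖h.divX.eval (t : ℂ)‖ := by
      intro t ht
      have h3 := hg t ht
      rw [hX, Polynomial.eval_mul, Polynomial.eval_X, norm_mul, Complex.norm_real,
        Real.norm_of_nonneg ht.le] at h3
      have h4 : t * c ≤ t * ‖h.divX.eval (t : ℂ)‖ := by linarith
      exact le_of_mul_le_mul_left h4 ht
    have h3 : c ≤ ‖h.divX.eval ((0 : ℝ) : ℂ)‖ := by
      have hcont : Continuous (fun t : ℝ => ‖h.divX.eval (t : ℂ)‖) := by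
        exact (h.divX.continuous.comp Complex.continuous_ofReal).norm
      have ht : Filter.Tendsto (fun t : ℝ => ‖h.divX.eval (t : ℂ)‖) (nhdsWithin 0 (Set.Ioi 0))
          (nhds ‖h.divX.eval ((0 : ℝ) : ℂ)‖) := (hcont.tendsto 0).mono_left nhdsWithin_le_nhds
      refine ge_of_tendsto ht ?_
      filter_upwards [self_mem_nhdsWithin] with t ht
      exact h2 t ht
    rw [h1]
    calc c * ((k : ℝ) / (k + 1)) ^ k ≤ c * 1 := mul_le_mul_of_nonneg_left hle1 hc.le
      _ = c := mul_one c
      _ ≤ _ := by simpa using h3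
  rcases Nat.eq_zero_or_pos k with hk | hk
  · subst hk
    have hlin : ∀ t : ℂ, h.eval t = h.coeff 0 + h.coeff 1 * t := by
      intro t
      rw [Polynomial.eval_eq_sum_range' (n := 2) (by omega)]
      simp [Finset.sum_range_succ]
    simp only [pow_zero, mul_one]
    by_contra hlt
    push Not at hlt
    set a := ‖h.coeff 0‖
    set b := ‖h.coeff 1‖
    have h1 := hg ((a + 1) / (c - b)) (by
      have : 0 ≤ a := norm_nonneg _
      have : 0 < c - b := by linarith
      positivity)
    rw [hlin] at h1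
    have h2 : ‖h.coeff 0 + h.coeff 1 * (((a + 1) / (c - b) : ℝ) : ℂ)‖ ≤ a + b * ((a + 1) / (c - b)) := by
      refine (norm_add_le _ _).trans ?_
      rw [norm_mul, Complex.norm_real, Real.norm_of_nonneg (by
        have : 0 ≤ a := norm_nonneg _
        have : 0 < c - b := by linarith
        positivity)]
    have h3 := h1.trans h2
    have h4 : (c - b) * ((a + 1) / (c - b)) = a + 1 := by
      have : c - b ≠ 0 := by linarith
      field_simp
    nlinarith
  · have hs := IsAlgClosed.splits h
    have hneg : ∀ z ∈ h.roots, z = -((‖z‖ : ℝ) : ℂ) ∧ 0 < ‖z‖ := by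
      intro z hz
      have hz' : h.eval z = 0 := (Polynomial.mem_roots hh0).mp hz
      have h1 := hroot z hz'
      have h2 : z ≠ 0 := by rintro rfl; exact h0 hz'
      have h3 : 0 < ‖z‖ := norm_pos_iff.mpr h2
      refine ⟨?_, h3⟩
      have h4 : z.re = -‖z‖ := by
        have := Complex.abs_re_le_norm z
        have := neg_abs_le z.re
        linarith
      have h5 : z.im = 0 := by
        have h6 : ‖z‖ ^ 2 = z.re ^ 2 + z.im ^ 2 := by
          rw [← Complex.normSq_eq_norm_sq, Complex.normSq_apply]; ring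
        rw [h4] at h6
        have : z.im ^ 2 = 0 := by linarith [h6]
        exact pow_eq_zero_iff (two_ne_zero) |>.mp this
      apply Complex.ext
      · rw [h4]; simp
      · rw [h5]; simp
    set S : ℝ := (h.roots.map fun z => 1 / ‖z‖).sum with hS
    have hd : h.coeff 1 = h.eval 0 * (S : ℂ) := by
      have h1 : h.coeff 1 = h.derivative.eval 0 := by
        rw [← Polynomial.coeff_zero_eq_eval_zero, Polynomial.coeff_derivative]; simp
      rw [h1, hs.eval_derivative_eq_eval_mul_sum h0, hS]
      congr 1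
      rw [← Complex.ofRealHom_eq_coe, map_multiset_sum, Multiset.map_map]
      congr 1
      apply Multiset.map_congr rfl
      intro z hz
      simp only [Function.comp_apply, Complex.ofRealHom_eq_coe]
      push_cast
      congr 1
      rw [zero_sub]
      have := (hneg z hz).1
      nth_rewrite 1 [this]
      simp
    have hS0 : 0 ≤ S := by
      apply Multiset.sum_nonneg
      intro x hx
      obtain ⟨z, _, rfl⟩ := Multiset.mem_map.mp hx
      positivity
    have hup : ∀ t : ℝ, 0 ≤ t → ‖h.eval (t : ℂ)‖ ≤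
        ‖h.eval 0‖ * ((h.roots.map fun z => t * (1 / ‖z‖)).map fun x => 1 + x).prod := by
      intro t ht
      rw [hs.eval_eq_prod_roots, hs.eval_eq_prod_roots, norm_mul, norm_mul, mul_assoc]
      apply mul_le_mul_of_nonneg_left _ (norm_nonneg _)
      rw [norm_multiset_prod, norm_multiset_prod, Multiset.map_map, Multiset.map_map,
        Multiset.map_map, ← Multiset.prod_map_mul]
      apply Multiset.prod_map_le_prod_map₀
      · intro z _; exact norm_nonneg _
      · intro z hz
        simp only [Function.comp_apply, zero_sub, norm_neg]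
        obtain ⟨h1, h2⟩ := hneg z hz
        have h3 : ‖(t : ℂ) - z‖ = t + ‖z‖ := by
          nth_rewrite 1 [h1]
          rw [sub_neg_eq_add, ← Complex.ofReal_add, Complex.norm_real]
          exact Real.norm_of_nonneg (by linarith)
        rw [h3]
        apply le_of_eq
        field_simp
        ring
    have hSpos : 0 < S := by
      rcases hS0.lt_or_eq with h1 | h1
      · exact h1
      · exfalso
        have hroots : h.roots = 0 := by
          by_contra hne
          obtain ⟨z, hz⟩ := Multiset.exists_mem_of_ne_zero hne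
          have h3 : 1 / ‖z‖ ≤ S := Multiset.single_le_sum (by
            intro x hx
            obtain ⟨w, _, rfl⟩ := Multiset.mem_map.mp hx
            positivity) _ (Multiset.mem_map_of_mem _ hz)
          have h4 : 0 < 1 / ‖z‖ := by
            have := (hneg z hz).2
            positivity
          linarith
        have hN : 0 < ‖h.eval 0‖ := norm_pos_iff.mpr h0
        have h2 := hup (2 * ‖h.eval 0‖ / c) (by positivity)
        have h3 := hg (2 * ‖h.eval 0‖ / c) (by positivity)
        rw [hroots] at h2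
        simp only [Multiset.map_zero, Multiset.prod_zero, mul_one] at h2
        have h4 : c * (2 * ‖h.eval 0‖ / c) = 2 * ‖h.eval 0‖ := by field_simp
        rw [h4] at h3
        linarith
    have hk0 : (0 : ℝ) < k := by exact_mod_cast hk
    set y : ℝ := 1 / k with hy
    have hy0 : 0 < y := by positivity
    set t : ℝ := (k + 1) * y / S with ht
    have ht0 : 0 < t := by positivity
    have h1 := hup t ht0.le
    have h2 := hg t ht0
    have h3 : ((h.roots.map fun z => t * (1 / ‖z‖)).map fun x => 1 + x).prod ≤ (1 + y) ^ (k + 1) := by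
      apply prod_bound _ k _ y hy0.le
      · intro x hx
        obtain ⟨z, _, rfl⟩ := Multiset.mem_map.mp hx
        positivity
      · rw [Multiset.sum_map_mul_left, ← hS, ht]
        field_simp
      · rw [Multiset.card_map]
        exact (Polynomial.card_roots' h).trans hdeg
    have h4 : c * t ≤ ‖h.eval 0‖ * (1 + y) ^ (k + 1) :=
      h2.trans (h1.trans (mul_le_mul_of_nonneg_left h3 (norm_nonneg _)))
    rw [hd, norm_mul, Complex.norm_real, Real.norm_of_nonneg hS0]
    have h5 : (k : ℝ) / (k + 1) = (1 + y)⁻¹ := by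
      rw [hy]; field_simp
    have h6 : ((k : ℝ) + 1) * y = 1 + y := by
      rw [hy]; field_simp
    have h7 : 0 < 1 + y := by linarith
    rw [h5, inv_pow, ← div_eq_mul_inv, div_le_iff₀ (pow_pos h7 k)]
    have h8 : c * (1 + y) ≤ (‖h.eval 0‖ * S * (1 + y) ^ k) * (1 + y) := by
      have h9 := mul_le_mul_of_nonneg_right h4 hS0
      have h10 : c * t * S = c * (1 + y) := by
        rw [ht, h6]; field_simp
      rw [h10] at h9
      calc c * (1 + y) ≤ _ := h9
        _ = _ := by rw [pow_succ]; ring
    exact le_of_mul_le_mul_right h8 h7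

lemma up_deg {k : ℕ} {f : MvPolynomial (Fin (k + 1)) ℂ} (hf : f.IsHomogeneous (k + 1))
    (y : Fin k → ℂ) : (up f y).natDegree ≤ k + 1 := by
  unfold up
  refine (Polynomial.natDegree_map_le).trans ?_
  rw [natDegree_finSuccEquiv]
  exact (degreeOf_le_totalDegree f 0).trans hf.totalDegree_le

/-- one elimination step -/
lemma step {k : ℕ} (f : MvPolynomial (Fin (k + 1)) ℂ) (hf : f.IsHomogeneous (k + 1)) (hs : Stab f)
    (c : ℝ) (hc : 0 < c) (hcap : ∀ x : Fin (k + 1) → ℝ, (∀ i, 0 < x i) →
      c * ∏ i, x i ≤ ‖eval (fun i => (x i : ℂ)) f‖) :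
    ((finSuccEquiv ℂ k f).coeff 1).IsHomogeneous k ∧ Stab ((finSuccEquiv ℂ k f).coeff 1) ∧
    ∀ x : Fin k → ℝ, (∀ i, 0 < x i) → c * ((k : ℝ) / (k + 1)) ^ k * ∏ i, x i ≤
      ‖eval (fun i => (x i : ℂ)) ((finSuccEquiv ℂ k f).coeff 1)‖ := by
  set q : MvPolynomial (Fin k) ℂ := (finSuccEquiv ℂ k f).coeff 1 with hq
  have hqhom : q.IsHomogeneous k := hf.finSuccEquiv_coeff_isHomogeneous 1 k (by omega)
  have hqev : ∀ y : Fin k → ℂ, eval y q = (up f y).coeff 1 := by
    intro y
    rw [up, Polynomial.coeff_map]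
  have hqev2 : ∀ y : Fin k → ℂ, eval y q = eval (Fin.cons 0 y : Fin (k + 1) → ℂ) (dd f) := by
    intro y
    rw [hqev, ← up_eval, up_dd, ← Polynomial.coeff_zero_eq_eval_zero,
      Polynomial.coeff_derivative]
    simp
  -- positivity growth in the first variable
  have hgrow : ∀ x : Fin k → ℝ, (∀ i, 0 < x i) → ∀ t : ℝ, 0 < t →
      (c * ∏ i, x i) * t ≤ ‖(up f (fun i => (x i : ℂ))).eval (t : ℂ)‖ := by
    intro x hx t ht
    rw [up_eval]
    have h1 := hcap (Fin.cons t x : Fin (k + 1) → ℝ) (by
      intro i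
      refine Fin.cases ?_ (fun j => ?_) i
      · exact ht
      · exact hx j)
    rw [Fin.prod_univ_succ] at h1
    simp only [Fin.cons_zero, Fin.cons_succ] at h1
    have h2 : (fun i => (((Fin.cons t x : Fin (k + 1) → ℝ) i : ℝ) : ℂ)) =
        (Fin.cons (t : ℂ) (fun i => (x i : ℂ)) : Fin (k + 1) → ℂ) := by
      funext i
      refine Fin.cases ?_ (fun j => ?_) i <;> simp
    rw [h2] at h1
    calc (c * ∏ i, x i) * t = c * (t * ∏ i, x i) := by ring
      _ ≤ _ := h1
  -- cap bound
  have hcapq : ∀ x : Fin k → ℝ, (∀ i, 0 < x i) →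
      c * ((k : ℝ) / (k + 1)) ^ k * ∏ i, x i ≤ ‖eval (fun i => (x i : ℂ)) q‖ := by
    intro x hx
    rw [hqev]
    have hP : 0 < ∏ i, x i := Finset.prod_pos fun i _ => hx i
    have h1 := lemCs (up f (fun i => (x i : ℂ))) k (up_deg hf _) (by
      intro u hu
      by_contra hcon
      push Not at hcon
      rw [up_eval] at hu
      have h2 := hom_eval hf (((‖u‖ : ℝ) : ℂ) + (starRingEnd ℂ) u)
        (Fin.cons u (fun i => (x i : ℂ)) : Fin (k + 1) → ℂ)
      rw [hu, mul_zero] at h2
      refine hs _ ?_ h2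
      intro i
      refine Fin.cases ?_ (fun j => ?_) i
      · simp only [Fin.cons_zero]
        have h3 : ((((‖u‖ : ℝ) : ℂ) + (starRingEnd ℂ) u) * u).re = ‖u‖ * (‖u‖ + u.re) := by
          rw [add_mul, Complex.add_re, Complex.re_ofReal_mul, mul_comm ((starRingEnd ℂ) u),
            Complex.mul_conj, Complex.ofReal_re, Complex.normSq_eq_norm_sq]
          ring
        rw [h3]
        have h4 : u ≠ 0 := by
          rintro rfl
          simp at hcon
        exact mul_pos (norm_pos_iff.mpr h4) hcon
      · simp only [Fin.cons_succ]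
        rw [mul_comm, Complex.re_ofReal_mul]
        apply mul_pos (hx j)
        simp
        exact hcon) (c * ∏ i, x i) (by positivity) (hgrow x hx)
    calc c * ((k : ℝ) / (k + 1)) ^ k * ∏ i, x i = (c * ∏ i, x i) * ((k : ℝ) / (k + 1)) ^ k := by ring
      _ ≤ _ := h1
  -- stability of dd f
  have hdstab : Stab (dd f) := by
    intro z hz
    have hz' : z = (Fin.cons (z 0) (Fin.tail z) : Fin (k + 1) → ℂ) := (Fin.cons_self_tail z).symm
    rw [hz', ← up_eval, up_dd]
    have hst : ∀ u : ℂ, 0 < u.re → (up f (Fin.tail z)).eval u ≠ 0 := by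
      intro u hu
      rw [up_eval]
      apply hs
      intro i
      refine Fin.cases ?_ (fun j => ?_) i
      · exact hu
      · exact hz _
    apply lemD _ hst _ _ (hz 0)
    -- non constant
    intro hroots
    have hsp := IsAlgClosed.splits (up f (Fin.tail z))
    have hconst : ∀ u, (up f (Fin.tail z)).eval u = (up f (Fin.tail z)).leadingCoeff := by
      intro u
      rw [hsp.eval_eq_prod_roots, hroots]; simp
    set L := ‖(up f (Fin.tail z)).leadingCoeff‖ with hL
    set P := c * ∏ i, (Fin.tail z i).re with hP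
    have hPpos : 0 < P := by
      apply mul_pos hc
      exact Finset.prod_pos fun i _ => hz _
    have hb : ∀ t : ℝ, 0 < t → P * t ≤ L := by
      intro t ht
      have h1 := hgrow (fun i => (Fin.tail z i).re) (fun i => hz _) t ht
      have h2 := lemA hf hs (Fin.cons (t : ℂ) (Fin.tail z) : Fin (k + 1) → ℂ) (by
        intro i
        refine Fin.cases ?_ (fun j => ?_) i
        · simpa using ht
        · exact hz _)
      have h3 : (fun i => ((((Fin.cons (t : ℂ) (Fin.tail z) : Fin (k + 1) → ℂ) i).re : ℝ) : ℂ)) =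
          (Fin.cons (t : ℂ) (fun i => (((Fin.tail z i).re : ℝ) : ℂ)) : Fin (k + 1) → ℂ) := by
        funext i
        refine Fin.cases ?_ (fun j => ?_) i <;> simp
      rw [h3, ← up_eval, ← up_eval, hconst] at h2
      exact h1.trans h2
    have h4 := hb ((L + 1) / P) (by
      have : 0 ≤ L := norm_nonneg _
      positivity)
    rw [mul_div_cancel₀ _ hPpos.ne'] at h4
    linarith
  -- stability of q
  have hqstab : Stab q := by
    intro y hy
    have hhom := dd_hom hf
    have h1 : ∀ t : ℝ, 0 < t →
        ‖eval (Fin.cons (t : ℂ) (fun i => ((y i).re : ℂ)) : Fin (k + 1) → ℂ) (dd f)‖ ≤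
        ‖eval (Fin.cons (t : ℂ) y : Fin (k + 1) → ℂ) (dd f)‖ := by
      intro t ht
      have h2 := lemA hhom hdstab (Fin.cons (t : ℂ) y : Fin (k + 1) → ℂ) (by
        intro i
        refine Fin.cases ?_ (fun j => ?_) i
        · simpa using ht
        · exact hy _)
      have h3 : (fun i => ((((Fin.cons (t : ℂ) y : Fin (k + 1) → ℂ) i).re : ℝ) : ℂ)) =
          (Fin.cons (t : ℂ) (fun i => (((y i).re : ℝ) : ℂ)) : Fin (k + 1) → ℂ) := by
        funext i
        refine Fin.cases ?_ (fun j => ?_) i <;> simp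
      rw [h3] at h2
      exact h2
    have hcont : ∀ w : Fin k → ℂ, Continuous
        (fun t : ℝ => ‖eval (Fin.cons (t : ℂ) w : Fin (k + 1) → ℂ) (dd f)‖) := by
      intro w
      simp only [← up_eval]
      exact ((up (dd f) w).continuous.comp Complex.continuous_ofReal).norm
    have h2 : ‖eval (Fin.cons ((0 : ℝ) : ℂ) (fun i => ((y i).re : ℂ)) : Fin (k + 1) → ℂ) (dd f)‖ ≤
        ‖eval (Fin.cons ((0 : ℝ) : ℂ) y : Fin (k + 1) → ℂ) (dd f)‖ := by
      have ht1 := ((hcont (fun i => ((y i).re : ℂ))).tendsto 0).mono_left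
        (nhdsWithin_le_nhds (s := Set.Ioi 0))
      have ht2 := ((hcont y).tendsto 0).mono_left (nhdsWithin_le_nhds (s := Set.Ioi 0))
      refine le_of_tendsto_of_tendsto ht1 ht2 ?_
      filter_upwards [self_mem_nhdsWithin] with t ht
      exact h1 t ht
    rw [Complex.ofReal_zero, ← hqev2, ← hqev2] at h2
    have h3 := hcapq (fun i => (y i).re) hy
    have h4 : 0 < c * ((k : ℝ) / (k + 1)) ^ k * ∏ i, (y i).re := by
      have : 0 < ∏ i, (y i).re := Finset.prod_pos fun i _ => hy i
      exact mul_pos (mul_pos hc (gpos k)) this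
    intro h0
    rw [h0, norm_zero] at h2
    linarith
  exact ⟨hqhom, hqstab, hcapq⟩

/-- Gurvits's inequality -/
theorem gurvits (k : ℕ) : ∀ (f : MvPolynomial (Fin k) ℂ), f.IsHomogeneous k → Stab f →
    ∀ c : ℝ, 0 < c → (∀ x : Fin k → ℝ, (∀ i, 0 < x i) →
      c * ∏ i, x i ≤ ‖eval (fun i => (x i : ℂ)) f‖) →
    c * ((k.factorial : ℝ) / (k : ℝ) ^ k) ≤
      ‖coeff (Finsupp.equivFunOnFinite.symm (fun _ => 1)) f‖ := by
  induction k with
  | zero =>
    intro f hf hs c hc hcap
    have h1 := hcap (fun i => i.elim0) (fun i => i.elim0)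
    simp only [Finset.univ_eq_empty, Finset.prod_empty, mul_one] at h1
    have h2 : f = C (coeff 0 f) := MvPolynomial.eq_C_of_isEmpty f
    have h3 : (Finsupp.equivFunOnFinite.symm (fun _ => 1) : Fin 0 →₀ ℕ) = 0 := by
      ext i; exact i.elim0
    rw [h3]
    rw [h2, eval_C] at h1
    simpa using h1
  | succ k ih =>
    intro f hf hs c hc hcap
    obtain ⟨h1, h2, h3⟩ := step f hf hs c hc hcap
    have hg0 : 0 < ((k : ℝ) / (k + 1)) ^ k := by
      rcases Nat.eq_zero_or_pos k with hk | hk
      · subst hk; simp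
      · have : (0 : ℝ) < k := by exact_mod_cast hk
        positivity
    set q : MvPolynomial (Fin k) ℂ := (finSuccEquiv ℂ k f).coeff 1 with hq
    have hfin := ih q h1 h2 (c * ((k : ℝ) / (k + 1)) ^ k) (by positivity) h3
    have hco : coeff (Finsupp.equivFunOnFinite.symm (fun _ => 1) : Fin k →₀ ℕ) q =
        coeff (Finsupp.equivFunOnFinite.symm (fun _ => 1) : Fin (k + 1) →₀ ℕ) f := by
      rw [hq, finSuccEquiv_coeff_coeff]
      congr 1
      ext i
      refine Fin.cases ?_ (fun j => ?_) i <;> simp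
    rw [hco] at hfin
    refine le_trans (le_of_eq ?_) hfin
    rw [Nat.factorial_succ, mul_assoc]
    congr 1
    rcases Nat.eq_zero_or_pos k with hk | hk
    · subst hk; simp
    · have : (0 : ℝ) < k := by exact_mod_cast hk
      push_cast
      rw [div_pow, pow_succ]
      field_simp

/-- the product of the linear forms of a doubly stochastic matrix -/
theorem pfacts {n : ℕ} (A : Fin n → Fin n → ℝ) (h0 : ∀ i j, 0 ≤ A i j)
    (hr : ∀ i, ∑ j, A i j = 1) (hcs : ∀ j, ∑ i, A i j = 1) :
    ∃ p : MvPolynomial (Fin n) ℂ, (∀ z : Fin n → ℂ, eval z p = ∏ i, ∑ j, ((A i j : ℝ) : ℂ) * z j) ∧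
      p.IsHomogeneous n ∧ Stab p ∧ (∀ x : Fin n → ℝ, (∀ i, 0 < x i) →
        1 * ∏ i, x i ≤ ‖eval (fun i => (x i : ℂ)) p‖) ∧
      coeff (Finsupp.equivFunOnFinite.symm (fun _ => 1) : Fin n →₀ ℕ) p =
        ((∑ σ : Equiv.Perm (Fin n), ∏ i, A i (σ i) : ℝ) : ℂ) := by
  classical
  set p : MvPolynomial (Fin n) ℂ := ∏ i, ∑ j, C ((A i j : ℝ) : ℂ) * X j with hp
  have hev : ∀ z : Fin n → ℂ, eval z p = ∏ i, ∑ j, ((A i j : ℝ) : ℂ) * z j := by
    intro z
    rw [hp, map_prod]
    simp
  have hhom : p.IsHomogeneous n := by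
    have h1 := IsHomogeneous.prod Finset.univ (fun i : Fin n => ∑ j, C ((A i j : ℝ) : ℂ) * X j)
      (fun _ => 1) (fun i _ => IsHomogeneous.sum _ _ _ fun j _ => isHomogeneous_C_mul_X _ _)
    simpa using h1
  have hstab : Stab p := by
    intro z hz
    rw [hev, Finset.prod_ne_zero_iff]
    intro i _ h1
    have h2 : (∑ j, ((A i j : ℝ) : ℂ) * z j).re = ∑ j, A i j * (z j).re := by
      rw [Complex.re_sum]
      apply Finset.sum_congr rfl
      intro j _
      rw [Complex.re_ofReal_mul]
    rw [h1, Complex.zero_re] at h2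
    have h3 : ∀ j ∈ Finset.univ, A i j * (z j).re = 0 :=
      (Finset.sum_eq_zero_iff_of_nonneg (fun j _ => mul_nonneg (h0 i j) (hz j).le)).mp h2.symm
    have h4 : ∑ j, A i j = 0 := by
      apply Finset.sum_eq_zero
      intro j hj
      rcases mul_eq_zero.mp (h3 j hj) with h | h
      · exact h
      · exact absurd h (hz j).ne'
    rw [hr i] at h4
    exact one_ne_zero h4
  have hcap : ∀ x : Fin n → ℝ, (∀ i, 0 < x i) →
      1 * ∏ i, x i ≤ ‖eval (fun i => (x i : ℂ)) p‖ := by
    intro x hx
    rw [hev, one_mul]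
    have h1 : ∏ i, ∑ j, ((A i j : ℝ) : ℂ) * (x j : ℂ) = ((∏ i, ∑ j, A i j * x j : ℝ) : ℂ) := by
      push_cast; rfl
    rw [h1, Complex.norm_real]
    refine le_trans ?_ (le_abs_self _)
    calc ∏ j, x j = ∏ j, x j ^ (∑ i, A i j) := by
          apply Finset.prod_congr rfl
          intro j _
          rw [hcs j, Real.rpow_one]
      _ = ∏ j, ∏ i, x j ^ (A i j) := by
          apply Finset.prod_congr rfl
          intro j _
          rw [Real.rpow_sum_of_pos (hx j)]
      _ = ∏ i, ∏ j, x j ^ (A i j) := Finset.prod_comm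
      _ ≤ ∏ i, ∑ j, A i j * x j := by
          apply Finset.prod_le_prod
          · intro i _
            exact Finset.prod_nonneg fun j _ => Real.rpow_nonneg (hx j).le _
          · intro i _
            exact Real.geom_mean_le_arith_mean_weighted _ _ _ (fun j _ => h0 i j) (hr i)
              (fun j _ => (hx j).le)
  have hcoeff : coeff (Finsupp.equivFunOnFinite.symm (fun _ => 1) : Fin n →₀ ℕ) p =
      ((∑ σ : Equiv.Perm (Fin n), ∏ i, A i (σ i) : ℝ) : ℂ) := by
    rw [hp, Finset.prod_univ_sum, coeff_sum]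
    have h1 : ∀ g ∈ Fintype.piFinset (fun _ : Fin n => (Finset.univ : Finset (Fin n))),
        coeff (Finsupp.equivFunOnFinite.symm (fun _ => 1) : Fin n →₀ ℕ)
          (∏ i, C ((A i (g i) : ℝ) : ℂ) * X (g i)) =
        if Function.Bijective g then ((∏ i, A i (g i) : ℝ) : ℂ) else 0 := by
      intro g _
      have h2 : (∏ i, C ((A i (g i) : ℝ) : ℂ) * X (g i) : MvPolynomial (Fin n) ℂ) =
          C ((∏ i, A i (g i) : ℝ) : ℂ) * monomial (∑ i, Finsupp.single (g i) 1) 1 := by
        rw [Finset.prod_mul_distrib]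
        congr 1
        · push_cast
          rw [map_prod]
        · exact (monomial_sum_one Finset.univ (fun i => Finsupp.single (g i) 1)).symm
      rw [h2, coeff_C_mul, coeff_monomial]
      have h3 : (∑ i, Finsupp.single (g i) 1 = (Finsupp.equivFunOnFinite.symm (fun _ => 1) :
          Fin n →₀ ℕ)) ↔ Function.Bijective g := by
        constructor
        · intro h
          rw [← Finite.surjective_iff_bijective]
          intro j
          by_contra hj
          push Not at hj
          have h4 := DFunLike.congr_fun h j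
          rw [Finsupp.finsetSum_apply] at h4
          simp only [Finsupp.equivFunOnFinite_symm_apply_apply] at h4
          rw [Finset.sum_eq_zero] at h4
          · exact zero_ne_one h4
          · intro i _
            exact Finsupp.single_eq_of_ne (fun e => hj i e.symm)
        · intro h
          ext j
          rw [Finsupp.finsetSum_apply]
          have h4 : ∑ i, (Finsupp.single (g i) 1 : Fin n →₀ ℕ) j =
              ∑ i, (Finsupp.single i 1 : Fin n →₀ ℕ) j :=
            h.sum_comp (fun i => (Finsupp.single i 1 : Fin n →₀ ℕ) j)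
          rw [h4]
          simp [Finsupp.single_apply]
      by_cases hb : Function.Bijective g
      · rw [if_pos hb, if_pos (h3.mpr hb), mul_one]
      · rw [if_neg hb, if_neg (fun h => hb (h3.mp h)), mul_zero]
    rw [Finset.sum_congr rfl h1, Fintype.piFinset_univ, ← Finset.sum_filter]
    push_cast
    symm
    apply Finset.sum_bij (fun (σ : Equiv.Perm (Fin n)) _ => (σ : Fin n → Fin n))
    · intro σ _
      exact Finset.mem_filter.mpr ⟨Finset.mem_univ _, σ.bijective⟩
    · intro σ _ τ _ h
      exact DFunLike.coe_injective h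
    · intro g hg
      exact ⟨Equiv.ofBijective g (Finset.mem_filter.mp hg).2, Finset.mem_univ _, rfl⟩
    · intro σ _
      rfl
  exact ⟨p, hev, hhom, hstab, hcap, hcoeff⟩

theorem t_col : S_col := by
  intro k A hA c hc hx
  obtain ⟨h0, hr, hcs⟩ := hA
  obtain ⟨p, hev, hhom, hstab, hcap, hcoeff⟩ := pfacts A h0 hr hcs
  obtain ⟨h1, h2, -⟩ := step p hhom hstab 1 one_pos hcap
  set q : MvPolynomial (Fin k) ℂ := (finSuccEquiv ℂ k p).coeff 1 with hq
  have hup : ∀ y : Fin k → ℂ, up p y = ∏ i, (Polynomial.C ((A i 0 : ℝ) : ℂ) * Polynomial.X +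
      Polynomial.C (∑ j : Fin k, ((A i j.succ : ℝ) : ℂ) * y j)) := by
    intro y
    apply Polynomial.funext
    intro t
    rw [up_eval, hev, Polynomial.eval_prod]
    refine Finset.prod_congr rfl fun i _ => ?_
    rw [Fin.sum_univ_succ]
    simp [Polynomial.eval_finsetSum]
  have hqev : ∀ y : Fin k → ℂ, eval y q = ∑ i, ((A i 0 : ℝ) : ℂ) *
      ∏ i' ∈ Finset.univ.erase i, ∑ j : Fin k, ((A i' j.succ : ℝ) : ℂ) * y j := by
    intro y
    have h3 : eval y q = (up p y).coeff 1 := by rw [up, Polynomial.coeff_map]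
    have h4 : (up p y).coeff 1 = (up p y).derivative.eval 0 := by
      rw [← Polynomial.coeff_zero_eq_eval_zero, Polynomial.coeff_derivative]; simp
    rw [h3, h4, hup, Polynomial.derivative_prod_finset, Polynomial.eval_finsetSum]
    refine Finset.sum_congr rfl fun i _ => ?_
    rw [Polynomial.eval_mul, Polynomial.eval_prod]
    have h7 : ∀ i' : Fin (k + 1), Polynomial.eval 0 (Polynomial.C ((A i' 0 : ℝ) : ℂ) * Polynomial.X +
        Polynomial.C (∑ j : Fin k, ((A i' j.succ : ℝ) : ℂ) * y j)) =
        ∑ j : Fin k, ((A i' j.succ : ℝ) : ℂ) * y j := by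
      intro i'
      rw [Polynomial.eval_add, Polynomial.eval_mul, Polynomial.eval_X, Polynomial.eval_C, mul_zero,
        zero_add, Polynomial.eval_C]
    have h8 : Polynomial.eval 0 (Polynomial.derivative (Polynomial.C ((A i 0 : ℝ) : ℂ) *
        Polynomial.X + Polynomial.C (∑ j : Fin k, ((A i j.succ : ℝ) : ℂ) * y j))) =
        ((A i 0 : ℝ) : ℂ) := by
      rw [Polynomial.derivative_add, Polynomial.derivative_C, add_zero, Polynomial.derivative_C_mul,
        Polynomial.derivative_X, mul_one, Polynomial.eval_C]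
    rw [h8, mul_comm]
    congr 1
    exact Finset.prod_congr rfl fun i' _ => h7 i'
  have h5 := gurvits k q h1 h2 c hc (by
    intro x hxp
    rw [hqev]
    have h6 : (∑ i, ((A i 0 : ℝ) : ℂ) *
      ∏ i' ∈ Finset.univ.erase i, ∑ j : Fin k, ((A i' j.succ : ℝ) : ℂ) * (x j : ℂ)) =
      ((∑ i, A i 0 * ∏ i' ∈ Finset.univ.erase i, ∑ j : Fin k, A i' j.succ * x j : ℝ) : ℂ) := by
      push_cast; rfl
    rw [h6, Complex.norm_real]
    exact (hx x hxp).trans (le_abs_self _))
  have hco : coeff (Finsupp.equivFunOnFinite.symm (fun _ => 1) : Fin k →₀ ℕ) q =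
      coeff (Finsupp.equivFunOnFinite.symm (fun _ => 1) : Fin (k + 1) →₀ ℕ) p := by
    rw [hq, finSuccEquiv_coeff_coeff]
    congr 1
    ext i
    refine Fin.cases ?_ (fun j => ?_) i <;> simp
  rw [hco, hcoeff, Complex.norm_real, Real.norm_of_nonneg (Finset.sum_nonneg fun σ _ =>
    Finset.prod_nonneg fun i _ => h0 _ _)] at h5
  refine h5.trans (le_of_eq ?_)
  rw [← Matrix.permanent_transpose]
  rfl

end Pool.Agent.Y727.FG
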