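import Pool.Agent.Y727.FG.Base

/-! # Foregger's conjecture: `per (X²) ≤ per X` near `P E` -/

set_option autoImplicit false

namespace Pool.Agent.Y727.FG

open Finset

variable {n : ℕ}

/-- permuting rows and columns keeps doubly stochastic -/
theorem DS.submatrix {A : Matrix (Fin n) (Fin n) ℝ} (hA : DS A) (σ τ : Equiv.Perm (Fin n)) :
    DS (A.submatrix σ τ) := by
  refine ⟨fun i j => hA.1 _ _, fun i => ?_, fun j => ?_⟩
  · simp only [Matrix.submatrix_apply]
    rw [Equiv.sum_comp τ (fun j => A (σ i) j)]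
    exact hA.2.1 _
  · simp only [Matrix.submatrix_apply]
    rw [Equiv.sum_comp σ (fun i => A i (τ j))]
    exact hA.2.2 _

theorem perm_rows (σ : Equiv.Perm (Fin n)) (A : Matrix (Fin n) (Fin n) ℝ) :
    (A.submatrix σ id).permanent = A.permanent := by
  first
    | exact Matrix.permanent_permute_rows σ A
    | exact Matrix.permanent_permute_cols σ A

theorem sm_conj {E B : Matrix (Fin n) (Fin n) ℝ} {σ : Equiv.Perm (Fin n)}
    (hσ : ∀ i j, E (σ i) (σ j) = E i j) : sm E (B.submatrix σ.symm σ.symm) = sm E B := by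
  unfold sm
  rw [← Equiv.sum_comp σ]
  refine sum_congr rfl fun i _ => ?_
  rw [← Equiv.sum_comp σ]
  refine sum_congr rfl fun j _ => ?_
  simp [Matrix.submatrix_apply, hσ]

theorem qm_conj {E B : Matrix (Fin n) (Fin n) ℝ} {σ : Equiv.Perm (Fin n)}
    (hσ : ∀ i j, E (σ i) (σ j) = E i j) : qm E (B.submatrix σ.symm σ.symm) = qm E B := by
  unfold qm
  rw [← Equiv.sum_comp σ]
  refine sum_congr rfl fun i _ => ?_
  rw [← Equiv.sum_comp σ]
  refine sum_congr rfl fun j _ => ?_
  simp [Matrix.submatrix_apply, hσ]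

theorem sm_nonneg {E B : Matrix (Fin n) (Fin n) ℝ} (hB : DS B) : 0 ≤ sm E B := by
  unfold sm
  refine sum_nonneg fun i _ => sum_nonneg fun j _ => ?_
  split_ifs
  · exact hB.1 _ _
  · exact le_rfl

theorem qm_nonneg {E B : Matrix (Fin n) (Fin n) ℝ} (hE : DS E) : 0 ≤ qm E B := by
  unfold qm
  exact sum_nonneg fun i _ => sum_nonneg fun j _ => mul_nonneg (hE.1 _ _) (sq_nonneg _)

theorem permanent_nonneg {A : Matrix (Fin n) (Fin n) ℝ} (hA : DS A) : 0 ≤ A.permanent := by
  unfold Matrix.permanent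
  exact sum_nonneg fun σ _ => prod_nonneg fun i _ => hA.1 _ _

theorem loc (hlow : S_low) (hupr : S_upr) : S_loc := by
  intro n E σ hE hEE hσ
  rcases Nat.eq_zero_or_pos n with hn | hn
  · subst hn
    refine ⟨1, one_pos, fun X _ _ => ?_⟩
    simp [Matrix.permanent_isEmpty]
  obtain ⟨K₁, hK₁, h1⟩ := hlow n E hE hEE
  obtain ⟨K₂, hK₂, h2⟩ := hupr n E hE hEE
  have hn' : (1 : ℝ) ≤ n := by exact_mod_cast hn
  set δ : ℝ := 1 / (2 * n * (K₁ + 2 * K₂ + 1)) with hδ
  have hδ0 : 0 < δ := by positivity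
  refine ⟨δ, hδ0, fun X hX hclose => ?_⟩
  have hδn : 2 * (n : ℝ) * δ ≤ 1 := by
    rw [hδ, ← mul_div_assoc, mul_one]
    rw [div_le_one (by positivity)]
    nlinarith
  have hδK : δ * (K₁ + 2 * K₂) ≤ 1 / (2 * n) := by
    rw [hδ, div_mul_eq_mul_div, one_mul, div_le_div_iff₀ (by positivity) (by positivity)]
    nlinarith
  -- the matrices near `E`
  set B : Matrix (Fin n) (Fin n) ℝ := X.submatrix σ.symm id with hB
  set B' : Matrix (Fin n) (Fin n) ℝ := B.submatrix σ.symm σ.symm with hB'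
  have hXB : ∀ i j, X i j = B (σ i) j := fun i j => by simp [hB]
  have hBd : DS B := hX.submatrix σ.symm 1
  have hBd' : DS B' := hBd.submatrix _ _
  have hcB : ∀ i j, |B i j - E i j| ≤ δ := by
    intro i j
    have := hclose (σ.symm i) j
    rw [Equiv.apply_symm_apply] at this
    simpa [hB] using this.le
  have hcB' : ∀ i j, |B' i j - E i j| ≤ δ := by
    intro i j
    have h3 := hcB (σ.symm i) (σ.symm j)
    have h4 : E (σ.symm i) (σ.symm j) = E i j := by
      rw [← hσ, Equiv.apply_symm_apply, Equiv.apply_symm_apply]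
    rw [h4] at h3
    simpa [hB'] using h3
  have hperX : X.permanent = B.permanent := by
    rw [hB, perm_rows]
  have hperXX : (X * X).permanent = (B' * B).permanent := by
    have h3 : X * X = ((B' * B).submatrix σ id).submatrix σ id := by
      ext i j
      simp only [Matrix.mul_apply, Matrix.submatrix_apply, id]
      rw [← Equiv.sum_comp σ (fun l => B' (σ (σ i)) l * B l j)]
      refine sum_congr rfl fun k _ => ?_
      simp [hB', hB]
    rw [h3, perm_rows, perm_rows]
  have h3 := h1 B δ hBd hδn hcB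
  have h4 := h2 B B' δ hBd hBd' hδn hcB hcB'
  have h5 : sm E B' = sm E B := sm_conj hσ
  have h6 : qm E B' = qm E B := qm_conj hσ
  rw [h5, h6] at h4
  rw [hperX, hperXX]
  refine h4.trans (le_trans ?_ h3)
  have hs := sm_nonneg (E := E) hBd
  have hq := qm_nonneg (B := B) hE
  refine mul_le_mul_of_nonneg_left ?_ (permanent_nonneg hE)
  set s := sm E B
  set q := qm E B
  have h7 : (K₁ + 2 * K₂) * δ * (s + q) ≤ 1 / (2 * n) * (s + q) :=
    mul_le_mul_of_nonneg_right (by linarith [mul_comm δ (K₁ + 2 * K₂)]) (by linarith)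
  have h8 : 1 / (2 * (n : ℝ)) * s ≤ s := by
    have : 1 / (2 * (n : ℝ)) ≤ 1 := by
      rw [div_le_one (by positivity)]
      linarith
    nlinarith
  have h9 : q / (2 * n) = 1 / (2 * (n : ℝ)) * q := by ring
  rw [h9]
  have h10 : K₂ * δ * (s + s + q + q) = 2 * K₂ * δ * (s + q) := by ring
  nlinarith

end Pool.Agent.Y727.FG
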