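import Pool.Agent.Y727.FG.Loc

/-! # Foregger's conjecture: the compactness argument -/

set_option autoImplicit false

namespace Pool.Agent.Y727.FG

open Finset Filter Topology

variable {n : ℕ}

theorem exists_idem {A : Matrix (Fin n) (Fin n) ℝ} (hA : DS A) :
    ∃ E : Matrix (Fin n) (Fin n) ℝ, DS E ∧ E * E = E ∧ ∃ N : ℕ → ℕ, (∀ i, 1 ≤ N i) ∧
      Tendsto (fun i => A ^ N i) atTop (𝓝 E) := by
  set s : Set (Matrix (Fin n) (Fin n) ℝ) := closure {X | ∃ N : ℕ, 1 ≤ N ∧ X = A ^ N} with hs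
  have hsub : s ⊆ DSset n := by
    refine closure_minimal ?_ isClosed_DSset
    rintro X ⟨N, -, rfl⟩
    exact hA.pow N
  have hcomp : IsCompact s := isCompact_DSset.of_isClosed_subset isClosed_closure hsub
  obtain ⟨E, hEs, hEE⟩ := exists_idempotent_in_compact_subsemigroup
    (M := Matrix (Fin n) (Fin n) ℝ) (fun r => continuous_id.mul continuous_const) s
    ⟨A, subset_closure ⟨1, le_rfl, (pow_one A).symm⟩⟩ hcomp (by
      intro x hx y hy
      rw [hs, mem_closure_iff_seq_limit] at hx hy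
      obtain ⟨u, hu, hux⟩ := hx
      obtain ⟨v, hv, hvy⟩ := hy
      rw [hs, mem_closure_iff_seq_limit]
      refine ⟨fun i => u i * v i, fun i => ?_, hux.mul hvy⟩
      obtain ⟨N, hN, h1⟩ := hu i
      obtain ⟨M, hM, h2⟩ := hv i
      exact ⟨N + M, by omega, by show u i * v i = A ^ (N + M); rw [h1, h2, pow_add]⟩)
  refine ⟨E, hsub hEs, hEE, ?_⟩
  rw [hs, mem_closure_iff_seq_limit] at hEs
  obtain ⟨u, hu, hlim⟩ := hEs
  choose N hN h1 using hu
  refine ⟨N, hN, ?_⟩
  have : (fun i => A ^ N i) = u := funext fun i => (h1 i).symm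
  rw [this]
  exact hlim

theorem commute_lim {A E : Matrix (Fin n) (Fin n) ℝ} {N : ℕ → ℕ}
    (h : Tendsto (fun i => A ^ N i) atTop (𝓝 E)) : A * E = E * A := by
  have h1 : Tendsto (fun i => A * A ^ N i) atTop (𝓝 (A * E)) := tendsto_const_nhds.mul h
  have h2 : Tendsto (fun i => A ^ N i * A) atTop (𝓝 (E * A)) := h.mul tendsto_const_nhds
  have h3 : (fun i => A * A ^ N i) = fun i => A ^ N i * A := funext fun i =>
    (pow_succ' A (N i)).symm.trans (pow_succ A (N i))
  rw [h3] at h1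
  exact tendsto_nhds_unique h1 h2

theorem lower (hidem : S_idem) (hblk : S_blk) (hnorm : S_norm)
    {A : Matrix (Fin n) (Fin n) ℝ} (hA : DS A) :
    ∃ E : Matrix (Fin n) (Fin n) ℝ, DS E ∧ E * E = E ∧ (∃ N : ℕ → ℕ, (∀ i, 1 ≤ N i) ∧
      Tendsto (fun i => A ^ N i) atTop (𝓝 E)) ∧ E.permanent ≤ A.permanent ∧
      (A.permanent = E.permanent → A * E = A ∧ E * A = A) := by
  obtain ⟨E, hE, hEE, N, hN, hlim⟩ := exists_idem hA
  refine ⟨E, hE, hEE, ⟨N, hN, hlim⟩, ?_⟩
  have hcomm : A * E = E * A := commute_lim hlim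
  obtain ⟨S, hS, hES⟩ := closed_rel (X := fun _ => A) (Y := fun i => A ^ N i) (X₀ := A) (Y₀ := E)
    tendsto_const_nhds hlim (Filter.Eventually.of_forall fun i => ⟨A ^ (N i - 1), hA.pow _, by
      show A ^ N i = A * A ^ (N i - 1)
      rw [← pow_succ', Nat.sub_add_cancel (hN i)]⟩)
  have hG : DS (A * E) := hA.mul hE
  have hGE : A * E * E = A * E := by rw [mul_assoc, hEE]
  have hfro : fro E ≤ fro (A * E) := by
    have h1 : E = A * E * S := by
      calc E = E * E := hEE.symm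
        _ = E * (A * S) := by rw [← hES]
        _ = A * E * S := by rw [← mul_assoc, ← hcomm]
    calc fro E = fro (A * E * S) := by rw [← h1]
      _ ≤ _ := fro_mul_le hS
  obtain ⟨τ, hτ⟩ := hnorm n E (A * E) hE hEE hG hGE hfro
  obtain ⟨hsym, hpos, hrow⟩ := hidem n E hE hEE
  set B : Matrix (Fin n) (Fin n) ℝ := A.submatrix τ.symm id with hB
  have hBd : DS B := hA.submatrix τ.symm 1
  have hBE : ∀ i j, ∑ k, B i k * E k j = E i j := by
    intro i j
    have h1 := hτ (τ.symm i) j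
    rw [Equiv.apply_symm_apply, Matrix.mul_apply] at h1
    simpa [hB] using h1
  have hsupp : ∀ i j, E i j = 0 → B i j = 0 := by
    intro i j h0
    have h1 := hBE i j
    rw [h0] at h1
    have h2 := (sum_eq_zero_iff_of_nonneg (fun k _ => mul_nonneg (hBd.1 i k) (hE.1 k j))).mp h1 j
      (mem_univ j)
    rcases mul_eq_zero.mp h2 with h3 | h3
    · exact h3
    · exact absurd h3 (hpos j).ne'
  obtain ⟨h1, h2⟩ := hblk n E B hE hEE hBd hsupp
  have hper : B.permanent = A.permanent := by rw [hB, perm_rows]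
  rw [hper] at h1 h2
  refine ⟨h1, fun heq => ?_⟩
  have h3 := h2 heq
  have h4 : A * E = A := by
    ext i j
    rw [hτ, ← h3]
    simp [hB]
  exact ⟨h4, by rw [← hcomm]; exact h4⟩

/-- A chain of inequalities. -/
theorem chain {f : ℕ → ℝ} {m : ℕ} (h : ∀ j, j < m → f (j + 1) ≤ f j) : f m ≤ f 0 := by
  induction m with
  | zero => exact le_rfl
  | succ m ih => exact (h m (by omega)).trans (ih fun j hj => h j (by omega))

theorem conj_of_mul {E C : Matrix (Fin n) (Fin n) ℝ} (hidem : S_idem) (hE : DS E)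
    (hEE : E * E = E) (hEC : E * C = C) {σ : Equiv.Perm (Fin n)} (hσ : ∀ i j, C i j = E (σ i) j) :
    ∀ i j, E (σ i) (σ j) = E i j := by
  classical
  obtain ⟨hsym, hpos, hrow⟩ := hidem n E hE hEE
  have h1 : ∀ i i', E i i' ≠ 0 → E (σ i) (σ i') ≠ 0 := by
    intro i i' h
    have h2 : ∀ j, C i j = C i' j := by
      intro j
      rw [← hEC, Matrix.mul_apply, Matrix.mul_apply]
      exact sum_congr rfl fun k _ => by rw [(hrow i i' h).2.2 k]
    have h3 := h2 (σ i')
    rw [hσ, hσ] at h3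
    rw [h3]
    exact (hpos _).ne'
  have hpow : ∀ (m : ℕ) i i', E i i' ≠ 0 → E ((σ ^ m) i) ((σ ^ m) i') ≠ 0 := by
    intro m
    induction m with
    | zero => intro i i' h; simpa using h
    | succ m ih =>
      intro i i' h
      rw [pow_succ', Equiv.Perm.mul_apply, Equiv.Perm.mul_apply]
      exact h1 _ _ (ih i i' h)
  have h2 : ∀ i i', E (σ i) (σ i') ≠ 0 → E i i' ≠ 0 := by
    intro i i' h
    have h3 : σ ^ (orderOf σ - 1) * σ = 1 := by
      rw [← pow_succ, Nat.sub_add_cancel (orderOf_pos σ), pow_orderOf_eq_one]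
    have h4 := hpow (orderOf σ - 1) _ _ h
    rw [← Equiv.Perm.mul_apply, ← Equiv.Perm.mul_apply, h3] at h4
    simpa using h4
  have h3 : ∀ i, E (σ i) (σ i) = E i i := by
    intro i
    have h4 : ∑ j, E i j = ((univ.filter fun j => E i j ≠ 0).card : ℝ) * E i i := by
      rw [← sum_filter_ne_zero, sum_congr rfl (g := fun _ => E i i), sum_const, nsmul_eq_mul]
      intro j hj
      exact (hrow i j (mem_filter.mp hj).2).1
    have h5 : ∑ j, E (σ i) (σ j) = ((univ.filter fun j => E i j ≠ 0).card : ℝ) * E (σ i) (σ i) := by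
      rw [← sum_filter_ne_zero]
      have h6 : (univ.filter fun j => E (σ i) (σ j) ≠ 0) = univ.filter fun j => E i j ≠ 0 := by
        ext j
        simp only [mem_filter, mem_univ, true_and]
        exact ⟨h2 i j, h1 i j⟩
      rw [h6, sum_congr rfl (g := fun _ => E (σ i) (σ i)), sum_const, nsmul_eq_mul]
      intro j hj
      exact (hrow _ _ (h1 i j (mem_filter.mp hj).2)).1
    rw [Equiv.sum_comp σ (fun j => E (σ i) j), hE.2.1, ] at h5
    rw [hE.2.1] at h4
    have h7 : ((univ.filter fun j => E i j ≠ 0).card : ℝ) ≠ 0 := by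
      intro h8
      rw [h8, zero_mul] at h4
      exact one_ne_zero h4
    exact mul_left_cancel₀ h7 (h5.symm.trans h4)
  intro i j
  by_cases h : E i j = 0
  · rw [h]
    by_contra h4
    exact h2 i j h4 h
  · rw [(hrow i j h).1, (hrow _ _ (h1 i j h)).1, h3]

theorem foregger (hidem : S_idem) (hblk : S_blk) (hup : S_up) (hnorm : S_norm) (hloc : S_loc)
    (n : ℕ) : ∃ k : ℕ, 2 ≤ k ∧ ∀ A : Matrix (Fin n) (Fin n) ℝ, DS A →
      (A ^ k).permanent ≤ A.permanent := by
  by_contra hcon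
  push Not at hcon
  have h1 : ∀ r : ℕ, ∃ A : Matrix (Fin n) (Fin n) ℝ, DS A ∧
      A.permanent < (A ^ (2 ^ (r + 1))).permanent := fun r => hcon (2 ^ (r + 1)) (by
        rw [pow_succ]
        have : 1 ≤ 2 ^ r := Nat.one_le_two_pow
        omega)
  choose A hA hAper using h1
  have h2 : ∀ r : ℕ, ∃ j : ℕ, j ≤ r ∧
      (A r ^ (2 ^ j)).permanent < (A r ^ (2 ^ (j + 1))).permanent := by
    intro r
    by_contra hc
    push Not at hc
    have h3 := chain (f := fun j => (A r ^ (2 ^ j)).permanent) (m := r + 1)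
      (fun j hj => hc j (by omega))
    simp only [pow_zero, pow_one] at h3
    exact absurd (hAper r) (not_lt.mpr h3)
  choose J hJr hJ using h2
  have hJ2 : ∀ r, 2 ^ J r ≤ 2 ^ r := fun r => Nat.pow_le_pow_right (by norm_num) (hJr r)
  have hexp : ∀ r, 2 ^ J r + (2 ^ (r + 1) - 2 ^ J r) = 2 ^ (r + 1) := fun r => by
    refine Nat.add_sub_cancel' ((hJ2 r).trans ?_)
    exact Nat.pow_le_pow_right (by norm_num) (by omega)
  -- compactness
  obtain ⟨⟨A₀, C₀, D₀⟩, -, φ, hφ, hlim⟩ :=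
    (isCompact_DSset.prod (isCompact_DSset.prod isCompact_DSset)).tendsto_subseq
      (x := fun r => ((A r, A r ^ (2 ^ J r), A r ^ (2 ^ (r + 1) - 2 ^ J r)) :
        Matrix (Fin n) (Fin n) ℝ × Matrix (Fin n) (Fin n) ℝ × Matrix (Fin n) (Fin n) ℝ))
      (fun r => ⟨hA r, (hA r).pow _, (hA r).pow _⟩)
  have hlA : Tendsto (fun r => A (φ r)) atTop (𝓝 A₀) := (continuous_fst.tendsto _).comp hlim
  have hlC : Tendsto (fun r => A (φ r) ^ (2 ^ J (φ r))) atTop (𝓝 C₀) :=
    ((continuous_fst.comp continuous_snd).tendsto _).comp hlim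
  have hlD : Tendsto (fun r => A (φ r) ^ (2 ^ (φ r + 1) - 2 ^ J (φ r))) atTop (𝓝 D₀) :=
    ((continuous_snd.comp continuous_snd).tendsto _).comp hlim
  have hA₀ : DS A₀ := isClosed_DSset.mem_of_tendsto hlA (Filter.Eventually.of_forall fun r => hA _)
  have hC₀ : DS C₀ :=
    isClosed_DSset.mem_of_tendsto hlC (Filter.Eventually.of_forall fun r => (hA _).pow _)
  have hD₀ : DS D₀ :=
    isClosed_DSset.mem_of_tendsto hlD (Filter.Eventually.of_forall fun r => (hA _).pow _)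
  set F : Matrix (Fin n) (Fin n) ℝ := C₀ * D₀ with hF
  have hlF : Tendsto (fun r => A (φ r) ^ (2 ^ (φ r + 1))) atTop (𝓝 F) := by
    have h3 : (fun r => A (φ r) ^ (2 ^ (φ r + 1))) = fun r => A (φ r) ^ (2 ^ J (φ r)) *
        A (φ r) ^ (2 ^ (φ r + 1) - 2 ^ J (φ r)) := funext fun r => by
      rw [← pow_add, hexp]
    rw [h3]
    exact hlC.mul hlD
  have hFd : DS F := hC₀.mul hD₀
  -- (a)
  have hle : A₀.permanent ≤ F.permanent :=
    le_of_tendsto_of_tendsto ((continuous_permanent.tendsto _).comp hlA)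
      ((continuous_permanent.tendsto _).comp hlF)
      (Filter.Eventually.of_forall fun r => (hAper (φ r)).le)
  -- (b)
  obtain ⟨E, hE, hEE, ⟨N, hN, hlE⟩, hEA, hEAeq⟩ := lower hidem hblk hnorm hA₀
  have hbig : ∀ m : ℕ, ∀ᶠ r in atTop, m ≤ 2 ^ (φ r + 1) := fun m => by
    filter_upwards [Filter.eventually_ge_atTop m] with r hr
    have h3 := hφ.id_le r
    have h4 : φ r + 1 < 2 ^ (φ r + 1) := Nat.lt_two_pow_self
    have h5 : r ≤ φ r := h3
    omega
  have hFl : ∀ m : ℕ, ∃ S, DS S ∧ F = A₀ ^ m * S := fun m =>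
    closed_rel (X := fun r => A (φ r) ^ m) (hlA.pow m) hlF (by
      filter_upwards [hbig m] with r hr
      exact ⟨A (φ r) ^ (2 ^ (φ r + 1) - m), (hA _).pow _, by rw [← pow_add]; congr 1; omega⟩)
  have hFr : ∀ m : ℕ, ∃ S, DS S ∧ F = S * A₀ ^ m := fun m =>
    closed_rel' (X := fun r => A (φ r) ^ m) (hlA.pow m) hlF (by
      filter_upwards [hbig m] with r hr
      exact ⟨A (φ r) ^ (2 ^ (φ r + 1) - m), (hA _).pow _, by rw [← pow_add]; congr 1; omega⟩)
  obtain ⟨S₁, hS₁, hFS₁⟩ := closed_rel (X := fun i => A₀ ^ N i) (Y := fun _ => F) hlE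
    tendsto_const_nhds (Filter.Eventually.of_forall fun i => hFl (N i))
  obtain ⟨S₂, hS₂, hFS₂⟩ := closed_rel' (X := fun i => A₀ ^ N i) (Y := fun _ => F) hlE
    tendsto_const_nhds (Filter.Eventually.of_forall fun i => hFr (N i))
  have hFE : F * E = F := by rw [hFS₂, mul_assoc, hEE]
  -- (c)
  obtain ⟨hup1, hup2⟩ := hup n E F hE hEE hFd hFE
  have hAE : A₀.permanent = E.permanent := le_antisymm (hle.trans hup1) hEA
  have hFEp : F.permanent = E.permanent := le_antisymm hup1 (hEA.trans hle)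
  obtain ⟨hAE1, hAE2⟩ := hEAeq hAE
  obtain ⟨τ, hτ⟩ := hup2 hFEp
  -- (d)
  have hJ1 : ∀ r, 1 ≤ 2 ^ J r := fun r => Nat.one_le_two_pow
  obtain ⟨S₃, hS₃, hCS₃⟩ := closed_rel hlA hlC (Filter.Eventually.of_forall fun r =>
    ⟨A (φ r) ^ (2 ^ J (φ r) - 1), (hA _).pow _, by
      rw [← pow_succ', Nat.sub_add_cancel (hJ1 _)]⟩)
  obtain ⟨S₄, hS₄, hCS₄⟩ := closed_rel' hlA hlC (Filter.Eventually.of_forall fun r =>
    ⟨A (φ r) ^ (2 ^ J (φ r) - 1), (hA _).pow _, by
      rw [← pow_succ, Nat.sub_add_cancel (hJ1 _)]⟩)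
  have hEC : E * C₀ = C₀ := by rw [hCS₃, ← mul_assoc, hAE2]
  have hCE : C₀ * E = C₀ := by rw [hCS₄, mul_assoc, hAE1]
  have hfF : fro F = fro E := by
    unfold fro
    rw [← Equiv.sum_comp τ (fun i => ∑ j, E i j ^ 2)]
    exact sum_congr rfl fun i _ => sum_congr rfl fun j _ => by rw [hτ]
  have hfC : fro E ≤ fro C₀ := by
    rw [← hfF, hF]
    exact fro_mul_le hD₀
  obtain ⟨σ, hσ⟩ := hnorm n E C₀ hE hEE hC₀ hCE hfC
  -- (e)
  have hconj := conj_of_mul hidem hE hEE hEC hσ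
  -- (f)
  obtain ⟨δ, hδ, hl⟩ := hloc n E σ hE hEE hconj
  have hev : ∀ᶠ r in atTop, ∀ i j, |(A (φ r) ^ (2 ^ J (φ r))) i j - E (σ i) j| < δ := by
    rw [Filter.eventually_all]
    intro i
    rw [Filter.eventually_all]
    intro j
    have hc : Continuous fun M : Matrix (Fin n) (Fin n) ℝ => M i j :=
      (continuous_apply j).comp (continuous_apply i)
    have h3 : Tendsto (fun r => (A (φ r) ^ (2 ^ J (φ r))) i j) atTop (𝓝 (C₀ i j)) :=
      (hc.tendsto C₀).comp hlC
    rw [hσ] at h3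
    have h4 := (Metric.tendsto_nhds.mp h3) δ hδ
    filter_upwards [h4] with r hr
    rwa [Real.dist_eq] at hr
  obtain ⟨r, hr⟩ := hev.exists
  have h5 := hl _ ((hA (φ r)).pow (2 ^ J (φ r))) hr
  rw [← pow_two, ← pow_mul, ← pow_succ] at h5
  exact absurd (hJ (φ r)) (not_lt.mpr h5)

end Pool.Agent.Y727.FG
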